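import Mathlib
import Pool.Agent.Lib.MP_44a246_ntSF.SFA03
import Pool.Agent.Lib.MP_44a246_ntSH.PJ16a

/-!
# The limit curve for points of bounded degree (paper 705, part (b)): the field of the germs
-/

namespace Pool.Agent.Lib.MP_44a246_ntTM

open Pool.Agent.Lib.MP_e52354_nt
open Pool.Agent.Lib.MP_44a246_nt
open Pool.Agent.Lib.MP_44a246_ntL
open Pool.Agent.Lib.MP_44a246_ntY
open Pool.Agent.Lib.MP_44a246_ntS
open Pool.Agent.Lib.MP_44a246_ntSH
open WithZero Module Polynomial

/-- heights in two intermediate fields -/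
theorem height_incl {κ L Ω : Type*} [Field κ] [IsAlgClosed κ] [CharZero κ] [Field L] [Algebra κ L]
    [Field Ω] [Algebra L Ω] [Algebra κ Ω] [IsScalarTower κ L Ω] (hL : IsFF κ L)
    {A B : IntermediateField L Ω} (h : A ≤ B) [FiniteDimensional L B] {σ : Type*} [Fintype σ]
    {y : σ → A} (hy : y ≠ 0) :
    (finrank L A : ℤ) * height κ (fun i => IntermediateField.inclusion h (y i)) =
      finrank L B * height κ y := by
  let iA : Algebra A B := (IntermediateField.inclusion h).toRingHom.toAlgebra
  have hA : FiniteDimensional L A := by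
    exact FiniteDimensional.of_injective (IntermediateField.inclusion h).toLinearMap
      (IntermediateField.inclusion h).injective
  have t1 : IsScalarTower L A B := IsScalarTower.of_algebraMap_eq fun u => rfl
  have t2 : IsScalarTower κ A B := IsScalarTower.of_algebraMap_eq fun u => rfl
  have hB : IsFF κ B := hL.of_finite
  have f1 : FiniteDimensional A B := FiniteDimensional.right L A B
  have h1 := hB.height_ext (K := A) hy
  have h2 := finrank_mul_finrank L A B
  have h3 : (fun i => IntermediateField.inclusion h (y i)) = fun i => algebraMap A B (y i) := rfl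
  rw [h3, h1, ← h2]
  push_cast
  ring

/-- the height of a vector is at most the sum of the heights of its coordinates -/
theorem height_le_sum_one' {κ L : Type*} [Field κ] [IsAlgClosed κ] [CharZero κ] [Field L]
    [Algebra κ L] (h : IsFF κ L) {n : ℕ} {x : Fin (n + 1) → L} (hx : x ≠ 0) :
    height κ x ≤ ∑ j, height κ ![1, x j] := by
  have h1 : ∑ j, height κ ![1, x j] =
      ∑ᶠ w : Place κ L, ∑ j, log (max 1 (w.1 (x j))) := by
    rw [finsum_sum_comm Finset.univ (fun (w : Place κ L) (j : Fin (n + 1)) =>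
      log (max 1 (w.1 (x j)))) fun j _ => log_max_support h (x j)]
    exact Finset.sum_congr rfl fun j _ => height_one _
  have hs : (Function.support fun w : Place κ L => ∑ j, log (max 1 (w.1 (x j)))).Finite := by
    refine (Set.finite_iUnion fun j => log_max_support h (x j)).subset fun w hw => ?_
    by_contra hcon
    rw [Set.mem_iUnion] at hcon
    push Not at hcon
    refine hw (Finset.sum_eq_zero fun j _ => ?_)
    exact Function.notMem_support.1 (hcon j)
  rw [h1]
  unfold height
  refine finsum_mono (h.vmax_support hx) hs fun w => ?_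
  obtain ⟨i, -, hi⟩ := Finset.exists_max_image (Finset.univ : Finset (Fin (n + 1)))
    (fun i => w.1 (x i)) Finset.univ_nonempty
  have h2 : vmax w.1 x = w.1 (x i) :=
    le_antisymm (vmax_le _ fun j => hi j (Finset.mem_univ j)) (le_vmax _ _ _)
  have hnn : ∀ j, 0 ≤ log (max 1 (w.1 (x j))) := by
    intro j
    have h3 : max 1 (w.1 (x j)) ≠ 0 := (lt_of_lt_of_le zero_lt_one (le_max_left _ _)).ne'
    rw [← log_one (M := ℤ), log_le_log one_ne_zero h3]
    exact le_max_left _ _
  have h4 : log (w.1 (x i)) ≤ log (max 1 (w.1 (x i))) := by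
    have h3 : max 1 (w.1 (x i)) ≠ 0 := (lt_of_lt_of_le zero_lt_one (le_max_left _ _)).ne'
    by_cases h0 : w.1 (x i) = 0
    · rw [h0, log_zero, ← h0]
      exact hnn i
    · rw [log_le_log h0 h3]
      exact le_max_right _ _
  rw [h2]
  exact h4.trans (Finset.single_le_sum (f := fun j => log (max 1 (w.1 (x j))))
    (fun j _ => hnn j) (Finset.mem_univ i))

noncomputable section

variable {κ K Ω : Type*} [Field κ] [IsAlgClosed κ] [CharZero κ] [Field K] [Algebra κ K]
  [Field Ω] [Algebra K Ω] [Algebra κ Ω] [IsScalarTower κ K Ω] (W : Tow κ K Ω)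
  (E : ∀ N, IntermediateField (W.L N) Ω)

/-- the field generated by the small germs and the germs of the sequences in `E N` -/
def tmE : IntermediateField W.F0 (UP Ω) :=
  IntermediateField.adjoin W.F0 {u | ∃ f : ∀ N, E N, germHom (fun N => (f N : Ω)) = u}

variable {W E}

theorem germ_mem_tmE (f : ∀ N, E N) : germHom (fun N => (f N : Ω)) ∈ tmE W E :=
  IntermediateField.subset_adjoin _ _ ⟨f, rfl⟩

/-- an element of `tmE` is a germ of elements of `E' N` if `E' N` contains `E N` and finitely many
small germs are germs of elements of `E' N` -/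
theorem tmE_gf {u : UP Ω} (hu : u ∈ tmE W E) :
    ∃ S : Finset (UP Ω), (∀ s ∈ S, s ∈ W.F0) ∧
      ∀ E' : ∀ N, IntermediateField (W.L N) Ω, (∀ N, E N ≤ E' N) → (∀ s ∈ S, s ∈ W.gf E') →
        u ∈ W.gf E' := by
  classical
  induction hu using IntermediateField.adjoin_induction with
  | mem x hx =>
    refine ⟨∅, by simp, fun E' hE' _ => ?_⟩
    obtain ⟨f, rfl⟩ := hx
    exact ⟨fun N => ⟨f N, hE' N (f N).2⟩, rfl⟩
  | algebraMap x =>
    refine ⟨{(x : UP Ω)}, ?_, fun E' _ hE => ?_⟩
    · intro s hs
      rw [Finset.mem_singleton] at hs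
      rw [hs]
      exact x.2
    · exact hE _ (Finset.mem_singleton_self _)
  | add x y _ _ ihx ihy =>
    obtain ⟨S, hS, hS'⟩ := ihx
    obtain ⟨T, hT, hT'⟩ := ihy
    refine ⟨S ∪ T, fun s hs => ?_, fun E' h' hE => ?_⟩
    · rcases Finset.mem_union.1 hs with h | h
      · exact hS s h
      · exact hT s h
    · exact add_mem (hS' E' h' fun s hs => hE s (Finset.mem_union_left _ hs))
        (hT' E' h' fun s hs => hE s (Finset.mem_union_right _ hs))
  | inv x _ ihx =>
    obtain ⟨S, hS, hS'⟩ := ihx
    exact ⟨S, hS, fun E' h' hE => inv_mem (hS' E' h' hE)⟩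
  | mul x y _ _ ihx ihy =>
    obtain ⟨S, hS, hS'⟩ := ihx
    obtain ⟨T, hT, hT'⟩ := ihy
    refine ⟨S ∪ T, fun s hs => ?_, fun E' h' hE => ?_⟩
    · rcases Finset.mem_union.1 hs with h | h
      · exact hS s h
      · exact hT s h
    · exact mul_mem (hS' E' h' fun s hs => hE s (Finset.mem_union_left _ hs))
        (hT' E' h' fun s hs => hE s (Finset.mem_union_right _ hs))

/-- the heights of an element in two finite extensions -/
theorem height_le_mul {L : Type*} [Field L] [Algebra κ L] [Algebra L Ω] [IsScalarTower κ L Ω]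
    (hL : IsFF κ L) {A B : IntermediateField L Ω} [FiniteDimensional L A] [FiniteDimensional L B]
    {y : A} {z : B} (hyz : (y : Ω) = z) :
    height κ ![1, y] ≤ finrank L A * height κ ![1, z] := by
  obtain ⟨u, hu⟩ : ∃ u : (A ⊓ B : IntermediateField L Ω), (u : Ω) = y :=
    ⟨⟨y, ⟨y.2, by rw [hyz]; exact z.2⟩⟩, rfl⟩
  have hne : (![1, u] : Fin 2 → (A ⊓ B : IntermediateField L Ω)) ≠ 0 :=
    fun h0 => one_ne_zero (congrFun h0 0)
  have h1 := height_incl (κ := κ) hL (A := A ⊓ B) (B := A) inf_le_left hne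
  have h2 := height_incl (κ := κ) hL (A := A ⊓ B) (B := B) inf_le_right hne
  have e1 : (fun i => IntermediateField.inclusion (inf_le_left : A ⊓ B ≤ A)
      ((![1, u] : Fin 2 → (A ⊓ B : IntermediateField L Ω)) i)) = ![1, y] := by
    funext i
    fin_cases i
    · exact map_one _
    · exact Subtype.ext hu
  have e2 : (fun i => IntermediateField.inclusion (inf_le_right : A ⊓ B ≤ B)
      ((![1, u] : Fin 2 → (A ⊓ B : IntermediateField L Ω)) i)) = ![1, z] := by
    funext i
    fin_cases i
    · exact map_one _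
    · exact Subtype.ext (hu.trans hyz)
  rw [e1] at h1
  rw [e2] at h2
  have hI : FiniteDimensional L (A ⊓ B : IntermediateField L Ω) :=
    FiniteDimensional.of_injective (IntermediateField.inclusion
      (inf_le_left : A ⊓ B ≤ A)).toLinearMap
      (IntermediateField.inclusion (inf_le_left : A ⊓ B ≤ A)).injective
  have hIF : IsFF κ (A ⊓ B : IntermediateField L Ω) := hL.of_finite
  have hAF : IsFF κ A := hL.of_finite
  have hBF : IsFF κ B := hL.of_finite
  have p1 : (1 : ℤ) ≤ finrank L (A ⊓ B : IntermediateField L Ω) := by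
    exact_mod_cast (finrank_pos : 0 < finrank L (A ⊓ B : IntermediateField L Ω))
  have p2 : (1 : ℤ) ≤ finrank L A := by
    exact_mod_cast (finrank_pos : 0 < finrank L A)
  have p3 : (1 : ℤ) ≤ finrank L B := by
    exact_mod_cast (finrank_pos : 0 < finrank L B)
  have n1 := height_one_nonneg hIF u
  have n2 := height_one_nonneg hAF y
  have n3 := height_one_nonneg hBF z
  -- `i * hA = a * hI`, `i * hB = b * hI`
  have h3 : height κ ![1, y] ≤ finrank L A * height κ ![1, u] := by
    rw [← h1]
    exact le_mul_of_one_le_left n2 p1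
  have h4 : (finrank L (A ⊓ B : IntermediateField L Ω) : ℤ) * height κ ![1, u] ≤
      finrank L (A ⊓ B : IntermediateField L Ω) * height κ ![1, z] := by
    rw [h2]
    refine mul_le_mul_of_nonneg_right ?_ n1
    exact_mod_cast (LinearMap.finrank_le_finrank_of_injective (f := (IntermediateField.inclusion
      (inf_le_right : A ⊓ B ≤ B)).toLinearMap)
      (IntermediateField.inclusion (inf_le_right : A ⊓ B ≤ B)).injective)
  have h5 : height κ ![1, u] ≤ height κ ![1, z] := le_of_mul_le_mul_left h4 (by linarith)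
  exact h3.trans (mul_le_mul_of_nonneg_left h5 (by linarith))

/-- the points whose coordinates have small germs have small heights -/
theorem height_le_of_mem_F0E [IsAlgClosed Ω] [Algebra.IsAlgebraic K Ω]
    [∀ N, FiniteDimensional (W.L N) (E N)] {c₀ : ℕ} (hE : ∀ N, finrank (W.L N) (E N) ≤ c₀) {n : ℕ}
    {x : ∀ N, Fin (n + 1) → E N} (hx : ∀ N, x N ≠ 0)
    (h : ∀ j, germHom (fun N => (x N j : Ω)) ∈ W.F0) :
    ∃ C : ℕ, ∀ᶠ N in (Filter.hyperfilter ℕ : Filter ℕ), height κ (x N) ≤ C * (W.T N : ℤ) := by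
  classical
  obtain ⟨c, E', r, hfin, -, -, hr, hht⟩ := W.exists_fld
    (Finset.univ.image fun j => germHom (fun N => (x N j : Ω))) (by
      intro s hs
      obtain ⟨j, -, rfl⟩ := Finset.mem_image.1 hs
      exact h j)
  have hmem : ∀ j, germHom (fun N => (x N j : Ω)) ∈
      Finset.univ.image fun j => germHom (fun N => (x N j : Ω)) := fun j =>
    Finset.mem_image_of_mem _ (Finset.mem_univ j)
  refine ⟨(n + 1) * (c₀ * c), ?_⟩
  have hev : ∀ j, ∀ᶠ N in (Filter.hyperfilter ℕ : Filter ℕ),
      (r (germHom (fun N => (x N j : Ω))) N : Ω) = (x N j : Ω) := fun j =>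
    (germHom_eq_iff _ _).1 (hr _ (hmem j))
  filter_upwards [Filter.eventually_all.2 hev] with N hN
  have := hfin N
  have hL : IsFF κ (W.L N) := W.ffL N
  have hEF : IsFF κ (E N) := hL.of_finite
  refine (height_le_sum_one' hEF (hx N)).trans ?_
  have hj : ∀ j, height κ ![1, x N j] ≤ (c₀ * c : ℕ) * (W.T N : ℤ) := by
    intro j
    refine (height_le_mul hL (hN j).symm).trans ?_
    have h1 := hht _ (hmem j) N
    have h2 : (finrank (W.L N) (E N) : ℤ) ≤ c₀ := by exact_mod_cast hE N
    have h3 : (0 : ℤ) ≤ finrank (W.L N) (E N) := by positivity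
    calc (finrank (W.L N) (E N) : ℤ) * height κ ![1, r (germHom fun N => (x N j : Ω)) N]
        ≤ finrank (W.L N) (E N) * (c * (W.T N : ℤ)) := mul_le_mul_of_nonneg_left h1 h3
      _ ≤ c₀ * (c * (W.T N : ℤ)) := mul_le_mul_of_nonneg_right h2 (by positivity)
      _ = (c₀ * c : ℕ) * (W.T N : ℤ) := by push_cast; ring
  calc ∑ j, height κ ![1, x N j] ≤ ∑ _j : Fin (n + 1), (c₀ * c : ℕ) * (W.T N : ℤ) :=
        Finset.sum_le_sum fun j _ => hj j
    _ = ((n + 1) * (c₀ * c) : ℕ) * (W.T N : ℤ) := by
        rw [Finset.sum_const, Finset.card_univ, Fintype.card_fin, nsmul_eq_mul]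
        push_cast
        ring

end

end Pool.Agent.Lib.MP_44a246_ntTM
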