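import Mathlib
import Pool.Agent.Lib.MP_44a246_ntUV.UV17
import Pool.Agent.Lib.MP_44a246_ntTM.TM04

/-!
# The limit curve for points of bounded degree (paper 705, part (b)): the limit of a generic
sequence and the two adjunction inequalities, arbitrary systems
-/

namespace Pool.Agent.Lib.MP_44a246_ntTM

open Pool.Agent.Lib.MP_e52354_nt
open Pool.Agent.Lib.MP_44a246_nt
open Pool.Agent.Lib.MP_44a246_ntL
open Pool.Agent.Lib.MP_44a246_ntR
open Pool.Agent.Lib.MP_44a246_ntS
open Pool.Agent.Lib.MP_44a246_ntSH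
open Pool.Agent.Lib.MP_44a246_ntSP
open Pool.Agent.Lib.MP_44a246_ntSF
open Pool.Agent.Lib.MP_44a246_ntUV
open WithZero MvPolynomial Module

universe u v

/-- **The limit of a generic sequence** of points of the locus with curves of small height: the
function field `M`, the point `γ`, the set `B` of the places at which a form `H_j`, `j ∉ A`,
vanishes, and the two adjunction inequalities. -/
theorem limit_pairE {κ : Type u} {K : Type v} {Ω : Type v} [Field κ] [IsAlgClosed κ]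
    [CharZero κ] [Field K] [Algebra κ K] [Field Ω] [Algebra K Ω] [Algebra κ Ω]
    [IsScalarTower κ K Ω] [IsAlgClosed Ω] [Algebra.IsAlgebraic K Ω] (W : Tow κ K Ω)
    {E : ∀ N, IntermediateField (W.L N) Ω} [∀ N, FiniteDimensional (W.L N) (E N)] {c₀ : ℕ}
    (hE : ∀ N, finrank (W.L N) (E N) ≤ c₀) {n r p m₀ b N₁ C : ℕ} (hr : r ≤ n) {d : Fin p → ℕ}
    (hd1 : ∀ j, 1 ≤ d j)
    {k : Type*} [Field k] [CharZero k] [Algebra k K] {ι : Type*} {e : ι → ℕ}
    {f : ι → MvPolynomial (Fin p ⊕ Fin (n + 1)) k}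
    (hf : ∀ i, (f i).IsWeightedHomogeneous (Sum.elim d fun _ => 1) (e i)) {A : Finset (Fin p)}
    (hfA : ∀ i, ∀ j ∉ A, Sum.inl j ∉ (f i).vars) {η : Fin (r + 1) → Fin (n + 1) → ℤ}
    (hη : ProjV hr ((Ideal.span (Set.range f)).comap
      (rename (Sum.inr : Fin (n + 1) → Fin p ⊕ Fin (n + 1)))) η)
    {H : Fin p → MvPolynomial (Fin (n + 1)) K} (hH : ∀ j, (H j).IsHomogeneous (d j))
    (ha : AlgebraicIndependent k
      (fun I : {I : Fin p × (Fin (n + 1) →₀ ℕ) // I.2.degree = d I.1} => (H I.1.1).coeff I.1.2))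
    {k₂ : Type*} [Field k₂] [CharZero k₂] [Algebra k₂ K] [Algebra k₂ Ω] [IsScalarTower k₂ K Ω]
    (hkk₂ : ∀ u : k, ∃ u' : k₂, algebraMap k₂ K u' = algebraMap k K u)
    (hcoef : ∀ j I, ∃ u : k₂, algebraMap k₂ K u = (H j).coeff I)
    {x : ∀ N, Fin (n + 1) → E N} {l : Fin (n + 1)} (hxl : ∀ N, x N l = 1)
    (hfx : ∀ N i, evK H (x N) (map (algebraMap k K) (f i)) = 0)
    (hrk : ∀ N, ∃ i : A → ι, (Matrix.of fun a b : A =>
      evK H (x N) (pderiv (Sum.inl (b : Fin p)) (map (algebraMap k K) (f (i a))))).det ≠ 0)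
    (hA : ∀ N, ∀ j ∉ A, aeval (x N) (H j) ≠ 0)
    {j : Fin m₀ → Fin (n + 1)}
    (hgen : ∀ G : MvPolynomial (Fin m₀) k₂, G ≠ 0 →
      ∃ N₀, ∀ N ≥ N₀, aeval (fun i => (x N (j i) : Ω)) G ≠ 0)
    (hbig : ∀ C : ℕ, ¬ ∀ᶠ N in (Filter.hyperfilter ℕ : Filter ℕ),
      height κ (x N) ≤ C * (W.T N : ℤ))
    (hcert : ∀ N, CertV κ b N₁ (C * (W.T N : ℤ)) (prj η (x N))) :
    ∃ (M : IntermediateField W.F0 (UP Ω)) (γ : Fin (n + 1) → M)
      (_ : Algebra (RatFunc W.F0) M) (_ : IsScalarTower W.F0 (RatFunc W.F0) M)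
      (_ : FiniteDimensional (RatFunc W.F0) M) (B : Finset (Place W.F0 M)),
      (∀ u ∈ M, u ∈ tmE W E) ∧ (∀ i, (γ i : UP Ω) = germHom (fun N => (x N i : Ω))) ∧
      (∀ v : Place W.F0 M, v ∈ B ↔
        ∃ j ∉ A, 0 < ordV v (d j) (aeval γ ((H j).map (cstHom W))) γ) ∧
      0 < height W.F0 γ ∧
      ((A.card : ℚ) + ∑ j, (d j : ℚ) + max m₀ 1 - (2 * r + 1)) * height W.F0 γ ≤
        ramDeg W.F0 M (RatFunc W.F0) - 2 * finrank (RatFunc W.F0) M + B.card ∧
      ((A.card : ℚ) + ∑ j ∈ A, (d j : ℚ) + max m₀ 1 - (2 * r + 1)) * height W.F0 γ ≤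
        ramDeg W.F0 M (RatFunc W.F0) - 2 * finrank (RatFunc W.F0) M := by
  classical
  obtain ⟨s, hs, hspan⟩ := exists_finite_system f
  choose g hg using fun y : s => hs y.2
  -- the values over `Ω`
  have hev : ∀ N (Q : MvPolynomial (Fin p ⊕ Fin (n + 1)) K),
      aeval (Sum.elim (fun j => aeval (fun i => (x N i : Ω)) (H j))
        (fun i => (x N i : Ω)) : Fin p ⊕ Fin (n + 1) → Ω) Q = (evK H (x N) Q : E N) := by
    intro N Q
    have h1 := aeval_algebraMap_apply (B := Ω)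
      (Sum.elim (fun j => aeval (x N) (H j)) (x N) : Fin p ⊕ Fin (n + 1) → E N) Q
    refine Eq.trans ?_ h1
    congr 2
    funext b
    rcases b with j | i
    · exact aeval_algebraMap_apply (B := Ω) (x N) (H j)
    · rfl
  refine limit_pair_finE W hE (b := b) (N₁ := N₁) (C' := C) hr hd1 (ι := s)
    (e := fun y => e (g y)) (f := fun y : s => (y : MvPolynomial (Fin p ⊕ Fin (n + 1)) k))
    (fun y => by
      have h1 := hf (g y)
      rwa [hg y] at h1)
    (A := A) (fun y j hj => by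
      have h1 := hfA (g y) j hj
      rwa [hg y] at h1)
    (η := η) (by rwa [hspan] at hη) hH ha hkk₂ hcoef hxl (fun N y => by
      have h1 := hfx N (g y)
      rw [hg y] at h1
      rw [hev, h1]
      rfl)
    (fun N => ?_) hA hgen hbig hcert
  -- the rank
  have hmem : ∀ i, (fun b : A => evK H (x N) (pderiv (Sum.inl (b : Fin p))
      (map (algebraMap k K) (f i)))) ∈ Submodule.span (E N)
      (Set.range fun (y : s) (b : A) => evK H (x N) (pderiv (Sum.inl (b : Fin p))
        (map (algebraMap k K) (y : MvPolynomial (Fin p ⊕ Fin (n + 1)) k)))) := by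
    intro i
    have h1 : f i ∈ Ideal.span (Set.range
        (fun y : s => (y : MvPolynomial (Fin p ⊕ Fin (n + 1)) k))) := by
      rw [← hspan]
      exact Ideal.subset_span ⟨i, rfl⟩
    obtain ⟨c, hc'⟩ := Ideal.mem_span_range_iff_exists_fun.1 h1
    have h2 : (fun b : A => evK H (x N) (pderiv (Sum.inl (b : Fin p))
        (map (algebraMap k K) (f i)))) = ∑ y : s, evK H (x N) (map (algebraMap k K) (c y)) •
        (fun b : A => evK H (x N) (pderiv (Sum.inl (b : Fin p))
          (map (algebraMap k K) (y : MvPolynomial (Fin p ⊕ Fin (n + 1)) k)))) := by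
      funext b
      rw [← hc', map_sum, map_sum, Finset.sum_apply]
      unfold evK
      rw [map_sum]
      refine Finset.sum_congr rfl fun y _ => ?_
      rw [map_mul, Derivation.leibniz, smul_eq_mul, smul_eq_mul, map_add, map_mul, map_mul]
      have h3 : aeval (Sum.elim (fun j => aeval (x N) (H j)) (x N) :
          Fin p ⊕ Fin (n + 1) → E N) (map (algebraMap k K)
          (y : MvPolynomial (Fin p ⊕ Fin (n + 1)) k)) = 0 := by
        have h4 := hfx N (g y)
        rw [hg y] at h4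
        exact h4
      rw [h3, zero_mul, add_zero]
      rfl
    rw [h2]
    exact Submodule.sum_mem _ fun y _ => Submodule.smul_mem _ _ (Submodule.subset_span ⟨y, rfl⟩)
  obtain ⟨i', hi'⟩ := exists_rows_span hmem (hrk N)
  refine ⟨i', fun h0 => hi' ?_⟩
  have h3 := RingHom.map_det (algebraMap (E N) Ω) (Matrix.of fun a b : A =>
    evK H (x N) (pderiv (Sum.inl (b : Fin p))
      (map (algebraMap k K) ((i' a : s) : MvPolynomial (Fin p ⊕ Fin (n + 1)) k))))
  apply (algebraMap (E N) Ω).injective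
  rw [map_zero]
  refine h3.trans ?_
  rw [← h0]
  congr 1
  ext a b
  show ((evK H (x N) (pderiv (Sum.inl (b : Fin p))
      (map (algebraMap k K) ((i' a : s) : MvPolynomial (Fin p ⊕ Fin (n + 1)) k))) : E N) : Ω) = _
  rw [← hev, pderiv_map]
  rfl

end Pool.Agent.Lib.MP_44a246_ntTM
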